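import Mathlib
import Pool.Agent.Helper67.R6.Fam

/-! # Row SVA of `Pool.Helper67.R6` (family of rank six) -/

set_option autoImplicit false

namespace Pool.Helper67.R6

namespace SVAx

variable {F : Type} [Field F] {Z : Finset (F × F)}

theorem pd_congr {k : ℕ} {f g : F × F → F} (h : PD Z k f) (hfg : ∀ z ∈ Z, g z = f z) :
    PD Z k g := by
  obtain ⟨P, hP, hz⟩ := h
  exact ⟨P, hP, fun z hz' => by rw [hfg z hz', hz z hz']⟩

theorem pd_mono {k l : ℕ} {f : F × F → F} (h : PD Z k f) (hkl : k ≤ l) : PD Z l f := by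
  obtain ⟨P, hP, hz⟩ := h
  exact ⟨P, hP.trans hkl, hz⟩

theorem pd_const (c : F) : PD Z 0 (fun _ => c) :=
  ⟨MvPolynomial.C c, by simp, fun z _ => by simp⟩

theorem pd_fst : PD Z 1 (fun z => z.1) :=
  ⟨MvPolynomial.X 0, by simp, fun z _ => by simp⟩

theorem pd_snd : PD Z 1 (fun z => z.2) :=
  ⟨MvPolynomial.X 1, by simp, fun z _ => by simp⟩

theorem pd_add {k : ℕ} {f g : F × F → F} (hf : PD Z k f) (hg : PD Z k g) :
    PD Z k (fun z => f z + g z) := by
  obtain ⟨P, hP, hz⟩ := hf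
  obtain ⟨Q, hQ, hw⟩ := hg
  refine ⟨P + Q, (MvPolynomial.totalDegree_add _ _).trans (max_le hP hQ), fun z h => ?_⟩
  show f z + g z = _
  rw [map_add, hz z h, hw z h]

theorem pd_mul {k l : ℕ} {f g : F × F → F} (hf : PD Z k f) (hg : PD Z l g) :
    PD Z (k + l) (fun z => f z * g z) := by
  obtain ⟨P, hP, hz⟩ := hf
  obtain ⟨Q, hQ, hw⟩ := hg
  refine ⟨P * Q, (MvPolynomial.totalDegree_mul _ _).trans (add_le_add hP hQ), fun z h => ?_⟩
  show f z * g z = _
  rw [map_mul, hz z h, hw z h]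

theorem pd_smul {k : ℕ} {f : F × F → F} (c : F) (hf : PD Z k f) :
    PD Z k (fun z => c * f z) := by
  have := pd_mul (pd_const (Z := Z) c) hf
  rwa [Nat.zero_add] at this

theorem pd_const' (c : F) (k : ℕ) : PD Z k (fun _ => c) := pd_mono (pd_const c) (Nat.zero_le k)

/-- quadratic forms have degree 2 -/
theorem pd_bf (f : Fin 3 → F) : PD Z 2 (fun z => bf f z) := by
  have h1 := pd_smul (f 0) (pd_mul (pd_fst (Z := Z)) pd_fst)
  have h2 := pd_smul (f 1) (pd_mul (pd_fst (Z := Z)) pd_snd)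
  have h3 := pd_smul (f 2) (pd_mul (pd_snd (Z := Z)) pd_snd)
  refine pd_congr (pd_add (pd_add h1 h2) h3) fun z _ => ?_
  simp only [bf]; ring

/-- the quadratic form `c₀ u₀² + c₁ u₁² + c₂ u₂²` -/
def qf (c : Fin 3 → F) (z : Fin 6 → F) : Fin 3 → F :=
  ![c 0 * z 3 ^ 2 + c 1 * z 4 ^ 2 + c 2 * z 5 ^ 2,
    -2 * (c 0 * (z 0 * z 3) + c 1 * (z 1 * z 4) + c 2 * (z 2 * z 5)),
    c 0 * z 0 ^ 2 + c 1 * z 1 ^ 2 + c 2 * z 2 ^ 2]

end SVAx

open SVAx

theorem st_SVA (hPDZ : ST_PDZ) (hDEG : ST_DEG) : ST_SVA := by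
  intro F _ h30 z hEX Z hZ
  set f : Fin 3 → F := qf ![-13, 16, -48] z with hf
  set g : Fin 3 → F := qf ![5, -8, 48] z with hg
  set h : Fin 3 → F := qf ![15, -6, 16] z with hh
  have h2 : (2 : F) ≠ 0 := fun h' => h30 (by
    have : (30 : F) = 2 * 15 := by norm_num
    rw [this, h', zero_mul])
  have h3 : (3 : F) ≠ 0 := fun h' => h30 (by
    have : (30 : F) = 3 * 10 := by norm_num
    rw [this, h', zero_mul])
  have h5 : (5 : F) ≠ 0 := fun h' => h30 (by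
    have : (30 : F) = 5 * 6 := by norm_num
    rw [this, h', zero_mul])
  have hne : ∀ ε δ : F, (ε = 1 ∨ ε = -1) → (δ = 1 ∨ δ = -1) →
      5 * V z 0 + 4 * ε * V z 1 + δ * V z 2 ≠ 0 ∧
      5 * V z 0 + 16 * ε * V z 1 + 9 * δ * V z 2 ≠ 0 := by
    intro ε δ hε hδ
    exact ⟨fun h' => hEX ⟨ε, δ, hε, hδ, Or.inl h'⟩, fun h' => hEX ⟨ε, δ, hε, hδ, Or.inr h'⟩⟩
  have hV0 : V z 0 = 4 * (z 1 * z 5 - z 2 * z 4) := rfl
  have hV1 : V z 1 = 5 * (z 0 * z 5 - z 2 * z 3) := rfl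
  have hV2 : V z 2 = 5 * (z 0 * z 4 - z 1 * z 3) := rfl
  have e1 : 625 * rs f g = 576 * ((5 * V z 0 + 4 * 1 * V z 1 + 1 * V z 2) *
      (5 * V z 0 + 4 * 1 * V z 1 + (-1) * V z 2) *
      (5 * V z 0 + 4 * (-1) * V z 1 + 1 * V z 2) *
      (5 * V z 0 + 4 * (-1) * V z 1 + (-1) * V z 2)) := by
    rw [hV0, hV1, hV2]
    simp only [hf, hg, qf, rs, Matrix.cons_val_zero, Matrix.cons_val_one, Matrix.cons_val]
    ring
  have e2 : 625 * rs f h = 4 * ((5 * V z 0 + 16 * 1 * V z 1 + 9 * 1 * V z 2) *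
      (5 * V z 0 + 16 * 1 * V z 1 + 9 * (-1) * V z 2) *
      (5 * V z 0 + 16 * (-1) * V z 1 + 9 * 1 * V z 2) *
      (5 * V z 0 + 16 * (-1) * V z 1 + 9 * (-1) * V z 2)) := by
    rw [hV0, hV1, hV2]
    simp only [hf, hh, qf, rs, Matrix.cons_val_zero, Matrix.cons_val_one, Matrix.cons_val]
    ring
  have hfg : rs f g ≠ 0 := by
    intro h'
    rw [h', mul_zero] at e1
    have h576 : (576 : F) ≠ 0 := by
      have : (576 : F) = 2 ^ 6 * 3 ^ 2 := by norm_num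
      rw [this]; exact mul_ne_zero (pow_ne_zero _ h2) (pow_ne_zero _ h3)
    exact mul_ne_zero h576 (mul_ne_zero (mul_ne_zero (mul_ne_zero
      (hne 1 1 (Or.inl rfl) (Or.inl rfl)).1 (hne 1 (-1) (Or.inl rfl) (Or.inr rfl)).1)
      (hne (-1) 1 (Or.inr rfl) (Or.inl rfl)).1) (hne (-1) (-1) (Or.inr rfl) (Or.inr rfl)).1) e1.symm
  have hfh : rs f h ≠ 0 := by
    intro h'
    rw [h', mul_zero] at e2
    have h4 : (4 : F) ≠ 0 := by
      have : (4 : F) = 2 ^ 2 := by norm_num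
      rw [this]; exact pow_ne_zero _ h2
    exact mul_ne_zero h4 (mul_ne_zero (mul_ne_zero (mul_ne_zero
      (hne 1 1 (Or.inl rfl) (Or.inl rfl)).2 (hne 1 (-1) (Or.inl rfl) (Or.inr rfl)).2)
      (hne (-1) 1 (Or.inr rfl) (Or.inl rfl)).2) (hne (-1) (-1) (Or.inr rfl) (Or.inr rfl)).2) e2.symm
  -- the functions
  let a : F × F → F := fun p => qa (U (p, z)) (V z)
  let b : F × F → F := fun p => qb (U (p, z)) (V z)
  let c : F × F → F := fun p => qc (U (p, z)) (V z)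
  let d : F × F → F := fun p => qd (U (p, z)) (V z)
  let e : F × F → F := fun p => qe (U (p, z)) (V z)
  have hU0 : ∀ p : F × F, U (p, z) 0 = p.1 * z 3 - z 0 * p.2 := fun p => rfl
  have hU1 : ∀ p : F × F, U (p, z) 1 = p.1 * z 4 - z 1 * p.2 := fun p => rfl
  have hU2 : ∀ p : F × F, U (p, z) 2 = 4 * (p.1 * z 5 - z 2 * p.2) := fun p => rfl
  set c0 : F := -13 * V z 0 ^ 2 + 16 * V z 1 ^ 2 - 3 * V z 2 ^ 2 with hc0
  set a0 : F := 5 * V z 0 ^ 2 - 8 * V z 1 ^ 2 + 3 * V z 2 ^ 2 with ha0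
  set e0 : F := 15 * V z 0 ^ 2 - 6 * V z 1 ^ 2 + V z 2 ^ 2 with he0
  have hcf : ∀ p, bf f p = c p - c0 := by
    intro p
    simp only [c, qc, hU0, hU1, hU2, hc0, hf, qf, bf, Matrix.cons_val_zero, Matrix.cons_val_one,
      Matrix.cons_val]
    ring
  have hag : ∀ p, bf g p = a p - a0 := by
    intro p
    simp only [a, qa, hU0, hU1, hU2, ha0, hg, qf, bf, Matrix.cons_val_zero, Matrix.cons_val_one,
      Matrix.cons_val]
    ring
  have heh : ∀ p, bf h p = e p - e0 := by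
    intro p
    simp only [e, qe, hU0, hU1, hU2, he0, hh, qf, bf, Matrix.cons_val_zero, Matrix.cons_val_one,
      Matrix.cons_val]
    ring
  have pc : PD Z 2 c := pd_congr (pd_add (pd_bf f) (pd_const' c0 2)) fun p _ => by rw [hcf]; ring
  have pa : PD Z 2 a := pd_congr (pd_add (pd_bf g) (pd_const' a0 2)) fun p _ => by rw [hag]; ring
  have pe : PD Z 2 e := pd_congr (pd_add (pd_bf h) (pd_const' e0 2)) fun p _ => by rw [heh]; ring
  have pb : PD Z 1 b := by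
    refine pd_congr (pd_add (pd_smul (V z 1 * z 4 - 2 * (V z 0 * z 3)) pd_fst)
      (pd_smul (-(V z 1 * z 1 - 2 * (V z 0 * z 0))) pd_snd)) fun p _ => ?_
    simp only [b, qb, hU0, hU1]; ring
  have pd' : PD Z 1 d := by
    refine pd_congr (pd_add (pd_smul (8 * (V z 0 * z 3) - V z 1 * z 4) pd_fst)
      (pd_smul (-(8 * (V z 0 * z 0) - V z 1 * z 1)) pd_snd)) fun p _ => ?_
    simp only [d, qd, hU0, hU1]; ring
  have r1 : ∀ p ∈ Z, 144 * a p * e p - 4800 * b p * d p + 25 * c p ^ 2 = 0 := fun p hp => (hZ p hp).1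
  have r2 : ∀ p ∈ Z, 4320 * a p * d p ^ 2 + 51840 * e p * b p ^ 2 - 7200 * b p * c p * d p -
      432 * a p * c p * e p + 25 * c p ^ 3 = 0 := fun p hp => (hZ p hp).2
  -- the cube of `c` has degree four
  have h20 : (20 : F) ≠ 0 := by
    have : (20 : F) = 2 ^ 2 * 5 := by norm_num
    rw [this]; exact mul_ne_zero (pow_ne_zero _ h2) h5
  have h144 : (144 : F) ≠ 0 := by
    have : (144 : F) = 2 ^ 4 * 3 ^ 2 := by norm_num
    rw [this]; exact mul_ne_zero (pow_ne_zero _ h2) (pow_ne_zero _ h3)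
  have pc3 : PD Z 4 (fun p => c p ^ 3) := by
    have t1 := pd_smul (1080 / 5) (pd_mul (pd_mul pb pc) pd')
    have t2 := pd_smul (-216 / 5) (pd_mul (pd_mul pa pd') pd')
    have t3 := pd_smul (-2592 / 5) (pd_mul (pd_mul pe pb) pb)
    refine pd_congr (pd_add (pd_add t1 t2) t3) fun p hp => ?_
    have k1 := r1 p hp
    have k2 := r2 p hp
    have k3 : 20 * (5 * c p ^ 3 - 1080 * (b p * c p * d p) + 216 * (a p * d p * d p) +
        2592 * (e p * b p * b p)) = 0 := by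
      linear_combination k2 + 3 * c p * k1
    have k4 := (mul_eq_zero.1 k3).resolve_left h20
    have k5 : 5 * c p ^ 3 = 5 * ((1080 / 5) * (b p * c p * d p) + (-216 / 5) * (a p * d p * d p) +
        (-2592 / 5) * (e p * b p * b p)) := by
      have i1 : (5 : F) * (1080 / 5) = 1080 := mul_div_cancel₀ _ h5
      have i2 : (5 : F) * (-216 / 5) = -216 := mul_div_cancel₀ _ h5
      have i3 : (5 : F) * (-2592 / 5) = -2592 := mul_div_cancel₀ _ h5
      linear_combination k4 - (b p * c p * d p) * i1 - (a p * d p * d p) * i2 -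
        (e p * b p * b p) * i3
    exact mul_left_cancel₀ h5 k5
  have pcae : PD Z 4 (fun p => c p * (a p * e p)) := by
    have t1 := pd_smul (4800 / 144) (pd_mul (pd_mul pb pc) pd')
    have t2 := pd_smul (-25 / 144) pc3
    refine pd_congr (pd_add t1 t2) fun p hp => ?_
    have k1 := r1 p hp
    have i1 : (144 : F) * (4800 / 144) = 4800 := mul_div_cancel₀ _ h144
    have i2 : (144 : F) * (-25 / 144) = -25 := mul_div_cancel₀ _ h144
    refine mul_left_cancel₀ h144 ?_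
    linear_combination c p * k1 - (b p * c p * d p) * i1 - c p ^ 3 * i2
  have paeae : PD Z 6 (fun p => (a p * e p) ^ 2) := by
    have t1 := pd_smul (4800 ^ 2 / 144 ^ 2) (pd_mono (pd_mul (pd_mul pb pd') (pd_mul pb pd'))
      (show 1 + 1 + (1 + 1) ≤ 6 by norm_num))
    have t2 := pd_smul (-240000 / 144 ^ 2) (pd_mul (pd_mul pb pd') (pd_mul pc pc))
    have t3 := pd_smul (625 / 144 ^ 2) (pd_mul pc3 pc)
    refine pd_congr (pd_add (pd_add t1 t2) t3) fun p hp => ?_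
    have k1 := r1 p hp
    have h2' : (144 ^ 2 : F) ≠ 0 := pow_ne_zero _ h144
    have i1 : (144 ^ 2 : F) * (4800 ^ 2 / 144 ^ 2) = 4800 ^ 2 := mul_div_cancel₀ _ h2'
    have i2 : (144 ^ 2 : F) * (-240000 / 144 ^ 2) = -240000 := mul_div_cancel₀ _ h2'
    have i3 : (144 ^ 2 : F) * (625 / 144 ^ 2) = 625 := mul_div_cancel₀ _ h2'
    refine mul_left_cancel₀ h2' ?_
    linear_combination (144 * a p * e p + (4800 * b p * d p - 25 * c p ^ 2)) * k1 -
      (b p * d p * (b p * d p)) * i1 - (b p * d p * (c p * c p)) * i2 - (c p ^ 3 * c p) * i3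
  have hP1 : PD Z 5 (fun p => bf f p ^ 3) := by
    have t1 := pd_mono pc3 (show 4 ≤ 5 by norm_num)
    have t2 := pd_mono (pd_smul (-3 * c0) (pd_mul pc pc)) (show 2 + 2 ≤ 5 by norm_num)
    have t3 := pd_mono (pd_smul (3 * c0 ^ 2) pc) (show 2 ≤ 5 by norm_num)
    refine pd_congr (pd_add (pd_add t1 t2) (pd_add t3 (pd_const' (-c0 ^ 3) 5))) fun p _ => ?_
    rw [hcf]; ring
  have hP2 : PD Z 5 (fun p => bf f p * (bf g p * bf h p)) := by
    have t1 := pd_mono pcae (show 4 ≤ 5 by norm_num)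
    have t2 := pd_mono (pd_smul (-e0) (pd_mul pc pa)) (show 2 + 2 ≤ 5 by norm_num)
    have t3 := pd_mono (pd_smul (-a0) (pd_mul pc pe)) (show 2 + 2 ≤ 5 by norm_num)
    have t4 := pd_mono (pd_smul (-c0) (pd_mul pa pe)) (show 2 + 2 ≤ 5 by norm_num)
    have t5 := pd_mono (pd_smul (a0 * e0) pc) (show 2 ≤ 5 by norm_num)
    have t6 := pd_mono (pd_smul (c0 * e0) pa) (show 2 ≤ 5 by norm_num)
    have t7 := pd_mono (pd_smul (c0 * a0) pe) (show 2 ≤ 5 by norm_num)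
    refine pd_congr (pd_add (pd_add (pd_add t1 t2) (pd_add t3 t4)) (pd_add (pd_add t5 t6)
      (pd_add t7 (pd_const' (-c0 * a0 * e0) 5)))) fun p _ => ?_
    rw [hcf, hag, heh]; ring
  have hP3 : PD Z 7 (fun p => (bf g p * bf h p) ^ 2) := by
    -- `g h = a e - e0 a - a0 e + a0 e0 = a e + r`, `r` of degree 2
    have tr : PD Z 2 (fun p => -e0 * a p + -a0 * e p + a0 * e0) :=
      pd_add (pd_add (pd_smul (-e0) pa) (pd_smul (-a0) pe)) (pd_const' (a0 * e0) 2)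
    have t1 := pd_mono paeae (show 6 ≤ 7 by norm_num)
    have t2 := pd_mono (pd_smul 2 (pd_mul (pd_mul pa pe) tr)) (show 2 + 2 + 2 ≤ 7 by norm_num)
    have t3 := pd_mono (pd_mul tr tr) (show 2 + 2 ≤ 7 by norm_num)
    refine pd_congr (pd_add (pd_add t1 t2) t3) fun p _ => ?_
    rw [hag, heh]; ring
  have key := hPDZ F Z 17 (hDEG F Z f g h hfg hfh hP1 hP2 hP3)
  simpa using key

end Pool.Helper67.R6
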